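import Pool.Agent.TH876.FH.Def

set_option autoImplicit false

/-!
# Heights of the modular invariant and of the Legendre parameter (piece LH of project FT)
-/

namespace Pool.Agent.E8helper60.FT

open Height MvPolynomial

variable {K : Type} [Field K] [NumberField K]

/-- the coefficients -/
noncomputable def q : Fin 2 × Fin 2 → MvPolynomial (Fin 2) K := fun a =>
  if a = (0, 0) then X 0 ^ 2 else if a = (0, 1) then 0 else
  if a = (1, 0) then - X 1 ^ 2 else X 0 ^ 2 - X 0 * X 1 + X 1 ^ 2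

/-- the forms -/
noncomputable def pf : Fin 2 → MvPolynomial (Fin 2) K := ![X 0 ^ 3, (X 0 + X 1) * X 1 ^ 2]

theorem q_hom (a : Fin 2 × Fin 2) : (q (K := K) a).IsHomogeneous 2 := by
  have h0 : (X 0 ^ 2 : MvPolynomial (Fin 2) K).IsHomogeneous 2 := isHomogeneous_X_pow 0 2
  have h1 : (X 1 ^ 2 : MvPolynomial (Fin 2) K).IsHomogeneous 2 := isHomogeneous_X_pow 1 2
  have h01 : (X 0 * X 1 : MvPolynomial (Fin 2) K).IsHomogeneous 2 :=
    (isHomogeneous_X K 0).mul (isHomogeneous_X K 1)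
  unfold q
  split_ifs
  · exact h0
  · exact isHomogeneous_zero _ _ _
  · exact h1.neg
  · exact (h0.sub h01).add h1

theorem low : ∃ c : ℝ, ∀ y : K, 3 * logHeight₁ y ≤ logHeight₁ (y ^ 3 / (y + 1)) + c := by
  obtain ⟨C, hC⟩ := logHeight_eval_ge' (M := 2) (N := 3) (q_hom (K := K))
  refine ⟨-C, fun y => ?_⟩
  have h := hC pf (x := ![y, 1]) (by
    intro k
    fin_cases k
    · simp [q, pf, Fin.sum_univ_two]
      ring
    · simp [q, pf, Fin.sum_univ_two]
      ring)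
  rw [logHeight₁_div_eq_logHeight, logHeight₁_eq_logHeight y]
  have e : (fun j => (pf (K := K) j).eval ![y, 1]) = ![y ^ 3, y + 1] := by
    funext j
    fin_cases j <;> simp [pf]
  rw [e] at h
  push_cast at h
  linarith

theorem quad : ∃ c : ℝ, ∀ l : K, 2 * logHeight₁ l ≤ logHeight₁ (l * (1 - l)) + c := by
  refine ⟨2 * (logHeight₁ (2⁻¹ : K) + (totalWeight K * Real.log 2 + logHeight₁ (1 : K))) +
    (totalWeight K * Real.log 2 + logHeight₁ (1 : K) + logHeight₁ (4 : K)), fun l => ?_⟩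
  have h1 := logHeight₁_mul_le (2⁻¹ : K) (1 - (1 - 2 * l))
  have h2 := logHeight₁_sub_le (1 : K) (1 - 2 * l)
  have h3 := logHeight₁_pow (1 - 2 * l) 2
  have h4 := logHeight₁_sub_le (1 : K) (4 * (l * (1 - l)))
  have h5 := logHeight₁_mul_le (4 : K) (l * (1 - l))
  have e1 : (2⁻¹ : K) * (1 - (1 - 2 * l)) = l := by
    have : (2 : K) ≠ 0 := two_ne_zero
    field_simp
    ring
  have e2 : 1 - 4 * (l * (1 - l)) = (1 - 2 * l) ^ 2 := by ring
  rw [e1] at h1
  rw [e2] at h4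
  push_cast at h3
  linarith

theorem t_LH : Pool.Agent.TH876.FH.LhS := by
  intro K _ _
  obtain ⟨c1, h1⟩ := low (K := K)
  obtain ⟨c2, h2⟩ := quad (K := K)
  refine ⟨3 * c2 + 3 * (totalWeight K * Real.log 2 + logHeight₁ (1 : K)) + c1 +
    logHeight₁ (256⁻¹ : K), fun j l hl0 hl1 hj => ?_⟩
  have hl2 : (1 - l) ≠ 0 := sub_ne_zero.2 (Ne.symm hl1)
  have hs : l * (1 - l) ≠ 0 := mul_ne_zero hl0 hl2
  set s : K := l * (1 - l) with hs'
  have hA := h1 (s⁻¹ - 1)
  have hB := h2 l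
  have e1 : s⁻¹ - 1 + 1 = s⁻¹ := by ring
  have hC := logHeight₁_add_le (s⁻¹ - 1) (1 : K)
  rw [e1, logHeight₁_inv] at hC
  have hD := logHeight₁_mul_le (256⁻¹ : K) j
  have h256 : (256 : K) ≠ 0 := by norm_num
  have e2 : (s⁻¹ - 1) ^ 3 / (s⁻¹ - 1 + 1) = 256⁻¹ * j := by
    have e3 : j * s ^ 2 = 256 * (1 - s) ^ 3 := by
      rw [hs']
      linear_combination hj
    rw [e1]
    have e4 : (s⁻¹ - 1) ^ 3 / s⁻¹ = (1 - s) ^ 3 / s ^ 2 := by
      field_simp
    rw [e4, div_eq_iff (pow_ne_zero 2 hs), mul_assoc, e3]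
    field_simp
  rw [e2] at hA
  linarith

end Pool.Agent.E8helper60.FT
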